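import Pool.Agent.L7h41.Circ.Defs

/-! # The checks of all rotation systems -/

set_option autoImplicit false

namespace Pool.Agent.L7h41.Circ

theorem chunk0 : allB 4096 (fun j => chk (Nat.add 0 j)) = true := by decide +kernel

theorem chunk1 : allB 4096 (fun j => chk (Nat.add 4096 j)) = true := by decide +kernel

theorem chunk2 : allB 4096 (fun j => chk (Nat.add 8192 j)) = true := by decide +kernel

theorem chunk3 : allB 4096 (fun j => chk (Nat.add 12288 j)) = true := by decide +kernel

theorem chunk4 : allB 4096 (fun j => chk (Nat.add 16384 j)) = true := by decide +kernel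

theorem chunk5 : allB 4096 (fun j => chk (Nat.add 20480 j)) = true := by decide +kernel

theorem chunk6 : allB 4096 (fun j => chk (Nat.add 24576 j)) = true := by decide +kernel

theorem chunk7 : allB 4096 (fun j => chk (Nat.add 28672 j)) = true := by decide +kernel

theorem chunk8 : allB 4096 (fun j => chk (Nat.add 32768 j)) = true := by decide +kernel

theorem chunk9 : allB 4096 (fun j => chk (Nat.add 36864 j)) = true := by decide +kernel

theorem chunk10 : allB 4096 (fun j => chk (Nat.add 40960 j)) = true := by decide +kernel

theorem chunk11 : allB 4096 (fun j => chk (Nat.add 45056 j)) = true := by decide +kernel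

theorem chunk12 : allB 4096 (fun j => chk (Nat.add 49152 j)) = true := by decide +kernel

theorem chunk13 : allB 4096 (fun j => chk (Nat.add 53248 j)) = true := by decide +kernel

theorem chunk14 : allB 4096 (fun j => chk (Nat.add 57344 j)) = true := by decide +kernel

theorem chunk15 : allB 4096 (fun j => chk (Nat.add 61440 j)) = true := by decide +kernel

theorem chk_all (m : ℕ) (hm : m < 65536) : chk m = true := by
  have key : ∀ c j : ℕ, j < 4096 → m = c + j →
      allB 4096 (fun j => chk (Nat.add c j)) = true → chk m = true := by
    intro c j hj h1 h2
    have := allB_spec h2 j hj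
    rw [h1]
    exact this
  have hj : m % 4096 < 4096 := Nat.mod_lt _ (by norm_num)
  have hq : m / 4096 < 16 := by omega
  have hm2 : m = 4096 * (m / 4096) + m % 4096 := (Nat.div_add_mod m 4096).symm
  generalize m / 4096 = q at hq hm2
  generalize m % 4096 = j at hj hm2
  interval_cases q
  · exact key 0 j hj (by omega) chunk0
  · exact key 4096 j hj (by omega) chunk1
  · exact key 8192 j hj (by omega) chunk2
  · exact key 12288 j hj (by omega) chunk3
  · exact key 16384 j hj (by omega) chunk4
  · exact key 20480 j hj (by omega) chunk5
  · exact key 24576 j hj (by omega) chunk6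
  · exact key 28672 j hj (by omega) chunk7
  · exact key 32768 j hj (by omega) chunk8
  · exact key 36864 j hj (by omega) chunk9
  · exact key 40960 j hj (by omega) chunk10
  · exact key 45056 j hj (by omega) chunk11
  · exact key 49152 j hj (by omega) chunk12
  · exact key 53248 j hj (by omega) chunk13
  · exact key 57344 j hj (by omega) chunk14
  · exact key 61440 j hj (by omega) chunk15

end Pool.Agent.L7h41.Circ
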