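import Mathlib

/-! # A branching search for small edge cuts -/

set_option autoImplicit false

namespace Pool.Agent.L7h41.Circ

/-- the number of the elements of the list which are binary digits of `S` -/
def inn (l : List ℕ) (S : ℕ) : ℕ := l.countP fun j => S.testBit j

/-- Search over all sets `S` of numbers below `t + fuel` with given part below `t`; `low i` is the list
of the neighbours of `i` smaller than `i`. -/
def srch (low : ℕ → List ℕ) : ℕ → ℕ → ℕ → ℕ → ℕ → Bool
  | 0, t, _, cut, size => (4 ≤ cut) || (size == 0) || (size == t) || (3 ≤ cut && (size == 1)) ||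
      (3 ≤ cut && (size + 1 == t))
  | fuel + 1, t, S, cut, size => (4 ≤ cut) ||
      (srch low fuel (t + 1) S (cut + inn (low t) S) size &&
       srch low fuel (t + 1) (S + 2 ^ t) (cut + ((low t).length - inn (low t) S)) (size + 1))

/-- the code of the set below `t` -/
def code (χ : ℕ → Bool) : ℕ → ℕ
  | 0 => 0
  | t + 1 => if χ t then code χ t + 2 ^ t else code χ t

def szOf (χ : ℕ → Bool) (t : ℕ) : ℕ := ((Finset.range t).filter fun i => χ i = true).card

/-- the number of pairs `i < t`, `j ∈ low i` with different values -/
def cutOf (low : ℕ → List ℕ) (χ : ℕ → Bool) (t : ℕ) : ℕ :=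
  ∑ i ∈ Finset.range t, (low i).countP fun j => χ j != χ i

theorem code_lt (χ : ℕ → Bool) (t : ℕ) : code χ t < 2 ^ t := by
  induction t with
  | zero => simp [code]
  | succ t ih =>
    rw [code, pow_succ]
    split_ifs <;> omega

theorem code_testBit (χ : ℕ → Bool) (t j : ℕ) (hj : j < t) : (code χ t).testBit j = χ j := by
  induction t with
  | zero => omega
  | succ t ih =>
    have hlt := code_lt χ t
    rw [code]
    rcases Nat.lt_or_ge j t with h | h
    · split_ifs with hc
      · rw [Nat.add_comm, Nat.testBit_two_pow_add_gt h, ih h]
      · exact ih h
    · have hjt : j = t := by omega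
      subst hjt
      split_ifs with hc
      · rw [Nat.add_comm, Nat.testBit_two_pow_add_eq, Nat.testBit_lt_two_pow hlt, hc]
        rfl
      · rw [Nat.testBit_lt_two_pow hlt]
        simpa using hc

theorem srch_sound (low : ℕ → List ℕ) (hlow : ∀ i, ∀ j ∈ low i, j < i) (χ : ℕ → Bool) :
    ∀ fuel t : ℕ, srch low fuel t (code χ t) (cutOf low χ t) (szOf χ t) = true →
      4 ≤ cutOf low χ (t + fuel) ∨ szOf χ (t + fuel) = 0 ∨ szOf χ (t + fuel) = t + fuel ∨
      (3 ≤ cutOf low χ (t + fuel) ∧
        (szOf χ (t + fuel) = 1 ∨ szOf χ (t + fuel) + 1 = t + fuel)) := by
  intro fuel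
  induction fuel with
  | zero =>
    intro t h
    simp only [srch, Bool.or_eq_true, Bool.and_eq_true, decide_eq_true_eq, beq_iff_eq] at h
    simp only [Nat.add_zero]
    tauto
  | succ n ih =>
    intro t h
    rw [srch, Bool.or_eq_true, Bool.and_eq_true, decide_eq_true_eq] at h
    rcases h with h | ⟨h1, h2⟩
    · left
      refine h.trans ?_
      rw [cutOf, cutOf]
      exact Finset.sum_le_sum_of_subset (by
        intro x hx
        rw [Finset.mem_range] at hx ⊢
        omega)
    · have e : t + (n + 1) = (t + 1) + n := by omega
      rw [e]
      apply ih
      have ecut : cutOf low χ (t + 1) = cutOf low χ t + (low t).countP (fun j => χ j != χ t) := by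
        rw [cutOf, Finset.sum_range_succ, ← cutOf]
      have einn : inn (low t) (code χ t) = (low t).countP (fun j => χ j) := by
        rw [inn]
        apply List.countP_congr
        intro j hj
        rw [code_testBit χ t j (hlow t j hj)]
      cases hc : χ t
      · have e1 : code χ (t + 1) = code χ t := by rw [code, hc]; simp
        have e2 : szOf χ (t + 1) = szOf χ t := by
          rw [szOf, Finset.range_add_one, Finset.filter_insert, if_neg (by rw [hc]; decide)]
          rfl
        have e3 : (low t).countP (fun j => χ j != χ t) = inn (low t) (code χ t) := by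
          rw [einn]
          apply List.countP_congr
          intro j _
          rw [hc]
          cases χ j <;> decide
        rw [e1, e2, ecut, e3]
        exact h1
      · have e1 : code χ (t + 1) = code χ t + 2 ^ t := by rw [code, hc]; simp
        have e2 : szOf χ (t + 1) = szOf χ t + 1 := by
          rw [szOf, Finset.range_add_one, Finset.filter_insert, if_pos hc,
            Finset.card_insert_of_notMem (by simp)]
          rfl
        have e3 : (low t).countP (fun j => χ j != χ t) =
            (low t).length - inn (low t) (code χ t) := by
          rw [einn]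
          have := List.length_eq_countP_add_countP (fun j => χ j) (l := low t)
          have e4 : (low t).countP (fun j => χ j != χ t) =
              (low t).countP (fun j => decide ¬ (χ j = true)) := by
            apply List.countP_congr
            intro j _
            rw [hc]
            cases χ j <;> decide
          omega
        rw [e1, e2, ecut, e3]
        exact h2

end Pool.Agent.L7h41.Circ
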