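import Mathlib

/-! # Following the faces of all rotation systems of a cubic graph on 16 vertices

The darts are numbered `0, ..., 47`; the darts `3 v`, `3 v + 1`, `3 v + 2` start at the vertex `v`.  A
rotation system is coded by a number `mask < 2 ^ 16` whose binary digit `v` tells which of the two
cyclic orders is used at `v`. -/

set_option autoImplicit false

namespace Pool.Agent.L7h41.Circ

/-- entry `i` of a table with entries of six binary digits -/
def g6 (T i : ℕ) : ℕ := Nat.land (Nat.shiftRight T (Nat.mul 6 i)) 63
/-- entry `i` of a table with entries of four binary digits -/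
def g4 (T i : ℕ) : ℕ := Nat.land (Nat.shiftRight T (Nat.mul 4 i)) 15
/-- binary digit `i` of `a`, as a number -/
def bt (i a : ℕ) : ℕ := Nat.land (Nat.shiftRight a i) 1

/-- the reversed dart -/
def R : ℕ := 346961314932924952716029113107333088794179512682125724036374841532181709458992871281027
/-- the end of a dart -/
def VT : ℕ := 5831119336397988536857527846391811719815195467055403107105
/-- the next dart of the face, for both rotations at the end -/
def A : ℕ := 168749539457996456743548895202331546752568008185401668947208174976987073091707247792483708753986148299369908195198336921623509059638443538132863762007798863852333604834144580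

/-- the next dart of the face -/
def phi (mask d : ℕ) : ℕ := g6 A (Nat.add (Nat.add d d) (bt (g4 VT d) mask))

/-- evaluate the argument first -/
def strict {C : Type} (f : ℕ → C) (n : ℕ) : C := Nat.rec (f 0) (fun k _ => f (Nat.succ k)) n

theorem strict_eq {C : Type} (f : ℕ → C) (n : ℕ) : strict f n = f n := by
  cases n <;> rfl

/-- follow the face of `d`; `true` if an edge is met twice -/
def tr (mask d : ℕ) (fuel : ℕ) : ℕ → ℕ → Bool :=
  Nat.rec (fun _ _ => false) (fun _ ih cur vis =>
    strict (fun nx => cond (Nat.beq nx d) false
      (cond (Nat.beq (bt (g6 R nx) vis) 1) true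
        (strict (ih nx) (Nat.lor vis (Nat.shiftLeft 1 nx))))) (phi mask cur)) fuel

/-- some face meets an edge twice -/
def non (mask : ℕ) (n : ℕ) : Bool :=
  Nat.rec false (fun d ih => cond (tr mask d 48 d (Nat.shiftLeft 1 d)) true ih) n

/-- follow the face of `d`: `true` if no smaller dart is met -/
def mn (mask d : ℕ) (fuel : ℕ) : ℕ → Bool :=
  Nat.rec (fun _ => true) (fun _ ih cur =>
    strict (fun nx => cond (Nat.beq nx d) true (cond (Nat.ble d nx) (ih nx) false))
      (phi mask cur)) fuel

/-- the number of smallest darts of faces below `n` -/
def cnt (mask : ℕ) (n : ℕ) : ℕ :=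
  Nat.rec 0 (fun d ih => cond (mn mask d 48 d) (Nat.succ ih) ih) n

/-- the check of one rotation system -/
def chk (mask : ℕ) : Bool := cond (non mask 48) true (Nat.ble (cnt mask 48) 7)

def allB (n : ℕ) (p : ℕ → Bool) : Bool :=
  Nat.rec true (fun j acc => cond (p j) acc false) n

theorem allB_spec {n : ℕ} {p : ℕ → Bool} (h : allB n p = true) : ∀ j < n, p j = true := by
  induction n with
  | zero => intro j hj; omega
  | succ n ih =>
    have h0 : allB (n + 1) p = cond (p n) (allB n p) false := rfl
    rw [h0] at h
    intro j hj
    cases hp : p n
    · rw [hp, cond_false] at h; exact absurd h (by decide)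
    · rw [hp, cond_true] at h
      rcases Nat.lt_or_ge j n with h1 | h1
      · exact ih h j h1
      · have : j = n := by omega
        rw [this]; exact hp

end Pool.Agent.L7h41.Circ
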