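import Pool.Agent.L7h41.Circ.Chunks

/-! # Soundness of the checks -/

set_option autoImplicit false

namespace Pool.Agent.L7h41.Circ

open Equiv

/-- The number of orbits (cycles, fixed points included) of a permutation. -/
noncomputable def orb {D : Type} (σ : Perm D) : ℕ :=
  Nat.card (Quotient (Perm.SameCycle.setoid σ))

theorem bt_le (i a : ℕ) : bt i a = if a.testBit i then 1 else 0 := by
  have h1 : Nat.testBit a i = (1 &&& (a >>> i) != 0) := rfl
  have h2 : bt i a = (a >>> i) % 2 := by
    change (a >>> i) &&& 1 = _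
    rw [Nat.and_one_is_mod]
  rw [h2, h1, Nat.and_comm 1, Nat.and_one_is_mod]
  rcases Nat.mod_two_eq_zero_or_one (a >>> i) with h | h <;> rw [h] <;> rfl

section

variable {m : ℕ} {Φ : Perm (Fin 48)} (hΦ : ∀ k : Fin 48, ((Φ k : Fin 48) : ℕ) = phi m k)
include hΦ

theorem tr_sound (d : Fin 48) (hR : ∀ k : Fin 48, g6 R k < 48) : ∀ (fuel : ℕ) (cur : Fin 48) (vis : ℕ),
    (∀ i : Fin 48, vis.testBit i = true → Φ.SameCycle d i) → Φ.SameCycle d cur →
    tr m d fuel cur vis = true → ∃ k k' : Fin 48, (k' : ℕ) = g6 R k ∧ Φ.SameCycle k k' := by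
  intro fuel
  induction fuel with
  | zero => intro cur vis _ _ h; exact absurd h (by change ¬ (false = true); decide)
  | succ n ih =>
    intro cur vis hv hc h
    have e : tr m d (n + 1) cur vis = strict (fun nx => cond (Nat.beq nx d) false
      (cond (Nat.beq (bt (g6 R nx) vis) 1) true
        (strict (tr m d n nx) (Nat.lor vis (Nat.shiftLeft 1 nx))))) (phi m cur) := rfl
    rw [e, strict_eq, ← hΦ cur, strict_eq] at h
    have hcc : Φ.SameCycle d (Φ cur) := Perm.sameCycle_apply_right.2 hc
    cases h1 : Nat.beq ((Φ cur : Fin 48) : ℕ) d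
    · rw [h1, cond_false] at h
      cases h2 : Nat.beq (bt (g6 R ((Φ cur : Fin 48) : ℕ)) vis) 1
      · rw [h2, cond_false] at h
        refine ih (Φ cur) _ ?_ hcc h
        intro i hi
        have h3 : (Nat.lor vis (Nat.shiftLeft 1 ((Φ cur : Fin 48) : ℕ))) =
          vis ||| (1 <<< ((Φ cur : Fin 48) : ℕ)) := rfl
        rw [h3, Nat.testBit_or, Nat.testBit_shiftLeft, Bool.or_eq_true] at hi
        rcases hi with hi | hi
        · exact hv i hi
        · rw [Bool.and_eq_true, decide_eq_true_eq, Nat.testBit_one_eq_true_iff_self_eq_zero] at hi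
          have : i = Φ cur := by
            apply Fin.ext
            omega
          rw [this]
          exact hcc
      · refine ⟨Φ cur, ⟨g6 R ((Φ cur : Fin 48) : ℕ), hR _⟩, rfl, ?_⟩
        have h4 := Nat.eq_of_beq_eq_true h2
        rw [bt_le] at h4
        have h5 : vis.testBit (g6 R ((Φ cur : Fin 48) : ℕ)) = true := by
          by_contra hne
          rw [if_neg hne] at h4
          exact absurd h4 (by decide)
        exact hcc.symm.trans (hv ⟨g6 R ((Φ cur : Fin 48) : ℕ), hR _⟩ h5)
    · rw [h1, cond_true] at h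
      exact absurd h (by decide)

theorem non_sound (hR : ∀ k : Fin 48, g6 R k < 48) : ∀ n ≤ 48, non m n = true →
    ∃ k k' : Fin 48, (k' : ℕ) = g6 R k ∧ Φ.SameCycle k k' := by
  intro n
  induction n with
  | zero => intro _ h; exact absurd h (by change ¬ (false = true); decide)
  | succ n ih =>
    intro hn h
    have e : non m (n + 1) = cond (tr m n 48 n (Nat.shiftLeft 1 n)) true (non m n) := rfl
    rw [e] at h
    cases h1 : tr m n 48 n (Nat.shiftLeft 1 n)
    · rw [h1, cond_false] at h
      exact ih (by omega) h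
    · refine tr_sound hΦ ⟨n, by omega⟩ hR 48 ⟨n, by omega⟩ (Nat.shiftLeft 1 n) ?_
        (Perm.SameCycle.refl _ _) h1
      intro i hi
      have h3 : Nat.shiftLeft 1 n = 1 <<< n := rfl
      rw [h3, Nat.testBit_shiftLeft, Bool.and_eq_true, decide_eq_true_eq,
        Nat.testBit_one_eq_true_iff_self_eq_zero] at hi
      have : i = ⟨n, by omega⟩ := by
        apply Fin.ext
        change (i : ℕ) = n
        omega
      rw [this]

theorem mn_sound (d : Fin 48) : ∀ (fuel : ℕ) (cur : Fin 48), Φ.SameCycle d cur →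
    mn m d fuel cur = false → ∃ k : Fin 48, Φ.SameCycle d k ∧ k < d := by
  intro fuel
  induction fuel with
  | zero => intro cur _ h; exact absurd h (by change ¬ (true = false); decide)
  | succ n ih =>
    intro cur hc h
    have e : mn m d (n + 1) cur = strict (fun nx => cond (Nat.beq nx d) true
      (cond (Nat.ble d nx) (mn m d n nx) false)) (phi m cur) := rfl
    rw [e, strict_eq, ← hΦ cur] at h
    have hcc : Φ.SameCycle d (Φ cur) := Perm.sameCycle_apply_right.2 hc
    cases h1 : Nat.beq ((Φ cur : Fin 48) : ℕ) d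
    · rw [h1, cond_false] at h
      cases h2 : Nat.ble (d : ℕ) ((Φ cur : Fin 48) : ℕ)
      · refine ⟨Φ cur, hcc, ?_⟩
        rw [Fin.lt_def]
        by_contra hle
        have : Nat.ble (d : ℕ) ((Φ cur : Fin 48) : ℕ) = true := by
          rw [Nat.ble_eq]; omega
        rw [this] at h2
        exact absurd h2 (by decide)
      · rw [h2, cond_true] at h
        exact ih (Φ cur) hcc h
    · rw [h1, cond_true] at h
      exact absurd h (by decide)

theorem orb_le : orb Φ ≤ cnt m 48 := by
  classical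
  have h1 : ∀ n, cnt m n = ((Finset.range n).filter (fun d => mn m d 48 d = true)).card := by
    intro n
    induction n with
    | zero => rfl
    | succ n ih =>
      have e : cnt m (n + 1) = cond (mn m n 48 n) (Nat.succ (cnt m n)) (cnt m n) := rfl
      rw [e, Finset.range_add_one, Finset.filter_insert]
      cases h : mn m n 48 n
      · rw [cond_false, if_neg (by decide), ih]
      · rw [cond_true, if_pos rfl, Finset.card_insert_of_notMem (by simp), ih]
  let S := {d : Fin 48 // mn m d 48 d = true}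
  have h2 : Nat.card S = cnt m 48 := by
    rw [h1, Nat.card_eq_fintype_card, Fintype.card_subtype]
    refine Finset.card_bij (fun d _ => (d : ℕ)) ?_ ?_ ?_
    · intro d hd
      rw [Finset.mem_filter] at hd ⊢
      exact ⟨Finset.mem_range.2 d.2, hd.2⟩
    · intro a _ b _ h
      exact Fin.ext h
    · intro b hb
      rw [Finset.mem_filter, Finset.mem_range] at hb
      exact ⟨⟨b, hb.1⟩, by rw [Finset.mem_filter]; exact ⟨Finset.mem_univ _, hb.2⟩, rfl⟩
  rw [← h2]
  refine Nat.card_le_card_of_surjective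
    (fun s : S => (Quotient.mk (Perm.SameCycle.setoid Φ) s.1)) ?_
  intro q
  obtain ⟨d, rfl⟩ := Quotient.exists_rep q
  have hne : ({k : Fin 48 | Φ.SameCycle d k} : Set (Fin 48)).Nonempty := ⟨d, Perm.SameCycle.refl _ _⟩
  obtain ⟨k, hk, hmin⟩ := WellFounded.has_min (wellFounded_lt (α := Fin 48)) _ hne
  have hkm : mn m k 48 k = true := by
    cases h : mn m k 48 k
    · obtain ⟨k', hk', hlt⟩ := mn_sound hΦ k 48 k (Perm.SameCycle.refl _ _) h
      exact absurd hlt (hmin k' (Perm.SameCycle.trans hk hk'))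
    · rfl
  exact ⟨⟨k, hkm⟩, Quotient.sound (Perm.SameCycle.symm hk)⟩

theorem main_sound (hR : ∀ k : Fin 48, g6 R k < 48) (hm : m < 65536) :
    (∃ k k' : Fin 48, (k' : ℕ) = g6 R k ∧ Φ.SameCycle k k') ∨ orb Φ ≤ 7 := by
  have h := chk_all m hm
  rw [chk] at h
  cases h1 : non m 48
  · rw [h1, cond_false, Nat.ble_eq] at h
    exact Or.inr ((orb_le hΦ).trans h)
  · exact Or.inl (non_sound hΦ hR 48 le_rfl h1)

end

theorem orb_ge {D A : Type} [Finite D] [Fintype A] (σ : Perm D) (f : D → A)
    (h : ∀ d, f (σ d) = f d) (hs : Function.Surjective f) : Fintype.card A ≤ orb σ := by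
  have hz : ∀ (n : ℤ) d, f ((σ ^ n) d) = f d := by
    intro n
    induction n using Int.induction_on with
    | zero => intro d; simp
    | succ n ih => intro d; rw [zpow_add, zpow_one, Perm.mul_apply, ih, h]
    | pred n ih =>
      intro d
      rw [zpow_sub, zpow_one, Perm.mul_apply, ih]
      have e1 : σ (σ⁻¹ d) = d := σ.apply_symm_apply d
      have := h (σ⁻¹ d)
      rw [e1] at this
      exact this.symm
  rw [← Nat.card_eq_fintype_card]
  refine Nat.card_le_card_of_surjective
    (fun q : Quotient (Perm.SameCycle.setoid σ) => Quotient.lift f (fun a b hab => ?_) q) ?_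
  · obtain ⟨n, rfl⟩ := hab
    exact (hz n a).symm
  · intro a
    obtain ⟨d, rfl⟩ := hs a
    exact ⟨Quotient.mk _ d, rfl⟩

theorem zpow_congr {A B : Type} (φ : A ≃ B) {σ : Perm A} {τ : Perm B}
    (h : ∀ a, φ (σ a) = τ (φ a)) (n : ℤ) (a : A) : φ ((σ ^ n) a) = (τ ^ n) (φ a) := by
  have hinv : ∀ a, φ (σ⁻¹ a) = τ⁻¹ (φ a) := by
    intro a
    apply τ.injective
    rw [← h]
    have e1 : σ (σ⁻¹ a) = a := σ.apply_symm_apply a
    have e2 : τ (τ⁻¹ (φ a)) = φ a := τ.apply_symm_apply _
    rw [e1, e2]
  induction n using Int.induction_on generalizing a with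
  | zero => simp
  | succ n ih => rw [zpow_add, zpow_add, zpow_one, zpow_one, Perm.mul_apply, Perm.mul_apply, ih, h]
  | pred n ih =>
    rw [zpow_sub, zpow_sub, zpow_one, zpow_one, Perm.mul_apply, Perm.mul_apply, ih, hinv]

theorem sameCycle_congr {A B : Type} (φ : A ≃ B) {σ : Perm A} {τ : Perm B}
    (h : ∀ a, φ (σ a) = τ (φ a)) (a b : A) : σ.SameCycle a b ↔ τ.SameCycle (φ a) (φ b) := by
  constructor
  · rintro ⟨n, rfl⟩
    exact ⟨n, (zpow_congr φ h n a).symm⟩
  · rintro ⟨n, hn⟩
    refine ⟨n, φ.injective ?_⟩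
    rw [zpow_congr φ h]
    exact hn

theorem orb_congr {A B : Type} (φ : A ≃ B) {σ : Perm A} {τ : Perm B}
    (h : ∀ a, φ (σ a) = τ (φ a)) : orb σ = orb τ :=
  Nat.card_congr (Quotient.congr φ fun a b => sameCycle_congr φ h a b)

end Pool.Agent.L7h41.Circ
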